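import Pool.Agent.W392.SepA
import Pool.Agent.W392.Surf

set_option autoImplicit false

namespace Pool.Agent.Results.MP_a3d4fe_al.QuasiRaySeparation

open Pool.Agent.W392

/-- There is a one-ended finitely generated group whose Cayley graph is coarsely separated by a
quasi-ray and by a quasiline, which does not split over any virtually infinite cyclic subgroup
and is not virtually a surface group. So the statements (b) and (c) fail for one-ended finitely
generated groups. -/
theorem result : ∃ (G : Type) (_ : Group G) (S : Finset G),
    Subgroup.closure (S : Set G) = ⊤ ∧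
    OneEnded (cayley S) ∧
    (∃ Y : Set G, IsQuasiRay (cayley S) Y ∧ CoarselySeparates (cayley S) Y) ∧
    (∃ Y : Set G, IsQuasiLine (cayley S) Y ∧ CoarselySeparates (cayley S) Y) ∧
    (∀ H : Subgroup G, VirtuallyZ H → ¬ SplitsOver G H) ∧
    ¬ VirtuallySurface G :=
  ⟨G, inferInstance, gens, closure_gens, oneEnded, ray_separates, line_separates, no_split,
    not_surface⟩

end Pool.Agent.Results.MP_a3d4fe_al.QuasiRaySeparation
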